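import Pool.Agent.V2450.WM.Ker

/-!
# MP_a3c811_ag: independence of l of the local factors of X × X and the monodromy-weight conjecture
-/

set_option autoImplicit false

open Module Polynomial

universe u v w

namespace Pool.Agent.Results.MP_a3c811_ag.LocalFactorsOfTheSquare

open Pool.Agent.H914 Pool.Agent.Y143 Pool.Agent.Y163.MW Pool.Agent.Y163.MX Pool.Agent.V2450.WM
  Pool.Agent.V1157.MW

variable {K : Type u} [Field K] {Λ : Type} {Ω : Λ → Type w} [∀ ℓ, Field (Ω ℓ)]
  [∀ ℓ, CharZero (Ω ℓ)]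

/-- `T ℓ` is the `ℓ`-adic cohomology of the varieties over the local field `K` (`K = ℚ_p`) in a class
`P` of smooth proper varieties closed under products, where `ℓ` runs through a set `Λ` of primes
`ℓ ≠ p`. It has the known properties (finite dimension, `N F = q F N`, integral weights, self-duality
of `H^m(X)`, Künneth formula), and for the varieties in `P` the characteristic polynomial of the
Frobenius `F` on `H^m(X)` has rational coefficients and does not depend on `ℓ`, for every `m`. -/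
structure IsSystem (T : ∀ ℓ, Theory.{u, v, w} K (Ω ℓ)) (q : ℕ) (P : SmVar.{u} K → Prop) :
    Prop where
  loc : ∀ ℓ, IsLocalOn (T ℓ) q P
  charpoly : ∀ X, P X → ∀ m, ∃ L : ℚ[X], ∀ ℓ,
    charP ((T ℓ).H X) m = L.map (algebraMap ℚ (Ω ℓ))

/-- The monodromy-weight conjecture for `X` and the prime `ℓ`. -/
def MW (T : ∀ ℓ, Theory.{u, v, w} K (Ω ℓ)) (q : ℕ) (X : SmVar.{u} K) (ℓ : Λ) : Prop :=
  ∀ m, ((T ℓ).H X).MWPure q m

/-- The polynomial `L` is the characteristic polynomial of `F` on the finite dimensional `F`-stable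
subspace `S`. -/
def IsCharpoly {k : Type w} [Field k] {V : Type v} [AddCommGroup V] [Module k V]
    (F : Module.End k V) (S : Submodule k V) (L : Polynomial k) : Prop :=
  ∃ (_ : Module.Finite k S) (h : ∀ x ∈ S, F x ∈ S), (F.restrict h).charpoly = L

/-- The local factors of `X` are independent of `ℓ`: for every `m` there is a polynomial with rational
coefficients which is for all `ℓ` the characteristic polynomial of the Frobenius on the kernel of `N`
on `H^m(X)`. If the inertia group acts unipotently on `H^*(X)`, the kernel of `N` is the space of the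
inertia invariants, and this is Q1 for `h(X)`. -/
def Independent (T : ∀ ℓ, Theory.{u, v, w} K (Ω ℓ)) (X : SmVar.{u} K) : Prop :=
  ∀ m, ∃ L : ℚ[X], ∀ ℓ, IsCharpoly ((T ℓ).H X).F
    (LinearMap.ker ((T ℓ).H X).N ⊓ ((T ℓ).H X).gr m) (L.map (algebraMap ℚ (Ω ℓ)))

/-- The dimension of the kernel of `N` on `H^*(X)`. If the inertia group acts unipotently on `H^*(X)`,
this is the sum of the degrees of the local factors of `X`. -/
noncomputable def deg (T : ∀ ℓ, Theory.{u, v, w} K (Ω ℓ)) (X : SmVar.{u} K) (ℓ : Λ) : ℕ :=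
  ((T ℓ).H X).inv

/-- **Local factors of `X × X` and the monodromy-weight conjecture.** Let `X` be in the class `P`, and
suppose that the monodromy-weight conjecture holds for `X` and one prime `ℓ₀`.

(1) For every prime `ℓ` the total degree of the local factors of `X × X` for `ℓ` is at least the one
for `ℓ₀`, and it is equal to it if and only if the monodromy-weight conjecture holds for `X` and `ℓ`.

(2) The following are equivalent: the monodromy-weight conjecture holds for `X` and all `ℓ`; the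
total degree of the local factors of `X × X` does not depend on `ℓ`; the local factors of `X × X` are
independent of `ℓ`; for all `n ≥ 1` the local factors of `X^n` are independent of `ℓ`. -/
theorem result [∀ ℓ, IsAlgClosed (Ω ℓ)] {T : ∀ ℓ, Theory.{u, v, w} K (Ω ℓ)} {q : ℕ} (hq : 1 < q)
    {P : SmVar.{u} K → Prop} (hT : IsSystem T q P) (X : SmVar.{u} K) (hX : P X) (ℓ₀ : Λ)
    (h0 : MW T q X ℓ₀) :
    (∀ ℓ, deg T (X.prod X) ℓ₀ ≤ deg T (X.prod X) ℓ ∧
      (deg T (X.prod X) ℓ = deg T (X.prod X) ℓ₀ ↔ MW T q X ℓ)) ∧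
    List.TFAE [∀ ℓ, MW T q X ℓ, ∀ ℓ ℓ', deg T (X.prod X) ℓ = deg T (X.prod X) ℓ',
      Independent T (X.prod X), ∀ n, Independent T (pow X n)] := by
  have hc : ∀ ℓ ℓ', SameChar ((T ℓ).H X) ((T ℓ').H X) := by
    intro ℓ ℓ' m
    obtain ⟨L, hL⟩ := hT.charpoly X hX m
    exact ⟨L, hL ℓ, hL ℓ'⟩
  have h1 : ∀ ℓ, deg T (X.prod X) ℓ₀ ≤ deg T (X.prod X) ℓ ∧
      (deg T (X.prod X) ℓ = deg T (X.prod X) ℓ₀ ↔ MW T q X ℓ) := fun ℓ =>
    inv_square (hT.loc ℓ) (hT.loc ℓ₀) hq hX (hc ℓ ℓ₀) h0
  refine ⟨h1, ?_⟩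
  tfae_have 1 → 4 := by
    intro h n m
    have hn : P (pow X n) := (hT.loc ℓ₀).pow hX n
    obtain ⟨L, hL⟩ := hT.charpoly _ hn m
    refine ⟨localQ q m L, fun ℓ => ?_⟩
    have := ((hT.loc ℓ).coh _ hn).finite
    exact ⟨inferInstance, kerN_F ((hT.loc ℓ).coh _ hn) m,
      charpoly_ker hq ((hT.loc ℓ).coh _ hn) (pure_pow (hT.loc ℓ) hq hX (h ℓ) n m) (hL ℓ) _⟩
  tfae_have 4 → 3 := fun h => h 1
  tfae_have 3 → 2 := by
    intro h ℓ ℓ'
    have hXX := (hT.loc ℓ).prod X X hX hX
    refine inv_congr ((hT.loc ℓ).coh _ hXX) ((hT.loc ℓ').coh _ hXX) fun m => ?_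
    obtain ⟨L, hL⟩ := h m
    obtain ⟨i, hF, e⟩ := hL ℓ
    obtain ⟨i', hF', e'⟩ := hL ℓ'
    have a := LinearMap.charpoly_natDegree ((((T ℓ).H (X.prod X)).F).restrict hF)
    have a' := LinearMap.charpoly_natDegree ((((T ℓ').H (X.prod X)).F).restrict hF')
    rw [e, Polynomial.natDegree_map] at a
    rw [e', Polynomial.natDegree_map] at a'
    exact a.symm.trans a'
  tfae_have 2 → 1 := fun h ℓ => (h1 ℓ).2.1 (h ℓ ℓ₀)
  tfae_finish

end Pool.Agent.Results.MP_a3c811_ag.LocalFactorsOfTheSquare
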